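import Pool.Agent.H80.EQ.Special

set_option autoImplicit false

namespace Pool.Agent.Results.MP_de9e11_lc.BinaryAlphabet

open Pool.Agent.H80.EQ FreeMonoid

/-- Finite determination of intersections of equality sets over alphabets with at most two
letters. -/
theorem result (A : Type) [Finite A] (hA : Nat.card A ≤ 2)
    (S : Set ((FreeMonoid A →* FreeMonoid A) × (FreeMonoid A →* FreeMonoid A))) :
    ∃ T : Set ((FreeMonoid A →* FreeMonoid A) × (FreeMonoid A →* FreeMonoid A)),
      T.Finite ∧ T ⊆ S ∧
        (⋂ p ∈ T, {x : FreeMonoid A | p.1 x = p.2 x}) =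
          ⋂ p ∈ S, {x : FreeMonoid A | p.1 x = p.2 x} := by
  classical
  have : Fintype A := Fintype.ofFinite A
  have hFD : FD (A := A) (B := A) S := by
    by_cases h2 : ∃ a b : A, a ≠ b
    · obtain ⟨a, b, hab⟩ := h2
      apply FD_two hab
      intro c
      by_contra hc
      push Not at hc
      have h3 : ({a, b, c} : Finset A).card = 3 := by
        rw [Finset.card_eq_three]
        exact ⟨a, b, c, hab, fun h => hc.1 h.symm, fun h => hc.2 h.symm, rfl⟩
      have h4 : ({a, b, c} : Finset A).card ≤ Fintype.card A := Finset.card_le_univ _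
      rw [Nat.card_eq_fintype_card] at hA
      omega
    · push Not at h2
      apply FD_Per
      have hper : ∀ g : FreeMonoid A →* FreeMonoid A, Per g := by
        intro g
        by_cases hne : Nonempty A
        · obtain ⟨a⟩ := hne
          refine ⟨g (of a), fun b => ⟨1, ?_⟩⟩
          rw [h2 b a, pow_one]
        · exact ⟨1, fun b => absurd ⟨b⟩ hne⟩
      intro q _
      exact ⟨hper q.1, hper q.2⟩
  obtain ⟨T, hTf, hTS, hTE⟩ := hFD
  refine ⟨T, hTf, hTS, ?_⟩
  ext x
  simp only [Set.mem_iInter, Set.mem_ofPred_eq]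
  constructor
  · intro hx p hp
    exact hTE (show x ∈ EqS T from hx) p hp
  · intro hx p hp
    exact hx p (hTS hp)

end Pool.Agent.Results.MP_de9e11_lc.BinaryAlphabet
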