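import Pool.Agent.H80.EQ.RunFD

set_option autoImplicit false

namespace Pool.Agent.Results.MP_de9e11_lc.BoundedImages

open Pool.Agent.H80.EQ FreeMonoid

/-- Finite determination of intersections of equality sets for pairs of homomorphisms whose
letter images lie in a fixed bounded language, up to an injective left factor common to the two
homomorphisms of the pair. -/
theorem result (A : Type) [Finite A] (C : Type) (k : ℕ) (w : Fin k → FreeMonoid C)
    (S : Set ((FreeMonoid A →* FreeMonoid A) × (FreeMonoid A →* FreeMonoid A)))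
    (hS : ∀ p ∈ S, ∃ (ψ : FreeMonoid C →* FreeMonoid A) (θ θ' : FreeMonoid A →* FreeMonoid C),
      Function.Injective ψ ∧ p.1 = ψ.comp θ ∧ p.2 = ψ.comp θ' ∧
      ∀ a, Bd w (θ (of a)) ∧ Bd w (θ' (of a))) :
    ∃ T : Set ((FreeMonoid A →* FreeMonoid A) × (FreeMonoid A →* FreeMonoid A)),
      T.Finite ∧ T ⊆ S ∧
        (⋂ p ∈ T, {x : FreeMonoid A | p.1 x = p.2 x}) =
          ⋂ p ∈ S, {x : FreeMonoid A | p.1 x = p.2 x} := by
  obtain ⟨T, hTf, hTS, hTE⟩ := FD_Bd_inj (A := A) (B := A) w S hS
  refine ⟨T, hTf, hTS, ?_⟩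
  ext x
  simp only [Set.mem_iInter, Set.mem_ofPred_eq]
  constructor
  · intro hx p hp
    exact hTE (show x ∈ EqS T from hx) p hp
  · intro hx p hp
    exact hx p (hTS hp)

end Pool.Agent.Results.MP_de9e11_lc.BoundedImages
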