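import Pool.Agent.H47.SW.Cmp
import Pool.Agent.H47.SW.Gap

/-!
# Finite determination of equality sets on spread words

`E(S)` is the set of words `x` with `p.1 x = p.2 x` for all pairs `p ∈ S` of homomorphisms of free
monoids.

For every finite alphabet `A` and every `N` there is a bound `K` such that every set `S` of pairs
of homomorphisms `A^* → B^*` (`B` any alphabet, erasing homomorphisms allowed) has a subset `T` with
at most `K` elements such that every word of `E(T)` which is `N`-spread for the pairs of `T` lies in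
`E(S)`.  In particular, `E(T) = E(S)` for all sets `S` of pairs with comparable letter images, and
`E(T)` and `E(S)` have the same words with bounded gaps for all `S`.
-/

set_option autoImplicit false

namespace Pool.Agent.Results.MP_de9e11_lc.SpreadWords

open H47.SW FreeMonoid

theorem result (A : Type) [Finite A] (N : ℕ) :
    (∃ K : ℕ, ∀ (B : Type)
      (S : Set ((FreeMonoid A →* FreeMonoid B) × (FreeMonoid A →* FreeMonoid B))),
      ∃ T ⊆ S, T.Finite ∧ T.ncard ≤ K ∧
        ∀ x : FreeMonoid A, (∀ p ∈ T, p.1 x = p.2 x ∧ Spread N p x) →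
          ∀ p ∈ S, p.1 x = p.2 x) ∧
    (∃ K : ℕ, ∀ (B : Type)
      (S : Set ((FreeMonoid A →* FreeMonoid B) × (FreeMonoid A →* FreeMonoid B))),
      (∀ p ∈ S, ∀ w ∈ {w | ∃ a, w = p.1 (of a) ∨ w = p.2 (of a)},
        ∀ w' ∈ {w | ∃ a, w = p.1 (of a) ∨ w = p.2 (of a)}, w ≠ 1 → w' ≠ 1 →
          w.length ≤ N * w'.length) →
      ∃ T ⊆ S, T.Finite ∧ T.ncard ≤ K ∧
        (⋂ p ∈ T, {x : FreeMonoid A | p.1 x = p.2 x}) =
          ⋂ p ∈ S, {x : FreeMonoid A | p.1 x = p.2 x}) ∧
    (∃ K : ℕ, ∀ (B : Type)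
      (S : Set ((FreeMonoid A →* FreeMonoid B) × (FreeMonoid A →* FreeMonoid B))),
      ∃ T ⊆ S, T.Finite ∧ T.ncard ≤ K ∧
        ∀ x : FreeMonoid A, (∀ y w z, x = y * w * z → w.length = N → ∀ a, a ∈ w.toList) →
          (∀ p ∈ T, p.1 x = p.2 x) → ∀ p ∈ S, p.1 x = p.2 x) :=
  ⟨main A N, comparable A N, gaps A N⟩

end Pool.Agent.Results.MP_de9e11_lc.SpreadWords
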