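import Pool.Agent.H80.EQ.TT5

set_option autoImplicit false

namespace Pool.Agent.Results.MP_de9e11_lc.TameFactorizations

open Pool.Agent.H80.EQ FreeMonoid

/-- Finite determination of intersections of equality sets for pairs of homomorphisms `ψ θ` with
`θ` having letter images of length at most `n` and `ψ` uniformly diverging at depth `n`; every
pair of homomorphisms is of this kind for some `n`. -/
theorem result (A B : Type) [Finite A] :
    (∀ (n : ℕ) (S : Set ((FreeMonoid A →* FreeMonoid A) × (FreeMonoid A →* FreeMonoid A))),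
      (∀ p ∈ S,
        (∃ (i : FreeMonoid B →* FreeMonoid A) (g h : FreeMonoid A →* FreeMonoid B),
          Function.Injective i ∧ p.1 = i.comp g ∧ p.2 = i.comp h ∧
            ((Tame n g ∧ Tame n h) ∨ (Tame n (rev g) ∧ Tame n (rev h)))) ∨
        (InjTame n p.1 ∧ Per p.2) ∨ (Per p.1 ∧ InjTame n p.2) ∨ (Per p.1 ∧ Per p.2)) →
      ∃ T : Set ((FreeMonoid A →* FreeMonoid A) × (FreeMonoid A →* FreeMonoid A)),
        T.Finite ∧ T ⊆ S ∧
          (⋂ p ∈ T, {x : FreeMonoid A | p.1 x = p.2 x}) =
            ⋂ p ∈ S, {x : FreeMonoid A | p.1 x = p.2 x}) ∧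
    (∀ g h : FreeMonoid A →* FreeMonoid A, ∃ n : ℕ, Tame n g ∧ Tame n h) := by
  classical
  have : Fintype A := Fintype.ofFinite A
  constructor
  · intro n S hS
    have hFD : FD (A := A) (B := A) S := by
      let S1 : Set (HPair A A) := {p ∈ S | ∃ (i : FreeMonoid B →* FreeMonoid A)
        (g h : FreeMonoid A →* FreeMonoid B), Function.Injective i ∧ p.1 = i.comp g ∧
          p.2 = i.comp h ∧ (Tame n g ∧ Tame n h)}
      let S2 : Set (HPair A A) := {p ∈ S | ∃ (i : FreeMonoid B →* FreeMonoid A)
        (g h : FreeMonoid A →* FreeMonoid B), Function.Injective i ∧ p.1 = i.comp g ∧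
          p.2 = i.comp h ∧ (Tame n (rev g) ∧ Tame n (rev h))}
      let S3 : Set (HPair A A) := {p ∈ S | InjTame n p.1 ∧ Per p.2}
      let S4 : Set (HPair A A) := {p ∈ S | Per p.1 ∧ InjTame n p.2}
      let S5 : Set (HPair A A) := {p ∈ S | Per p.1 ∧ Per p.2}
      have hdec : S = (((S1 ∪ S2) ∪ S3) ∪ S4) ∪ S5 := by
        ext p
        constructor
        · intro hp
          rcases hS p hp with ⟨i, g, h, h1, h2, h3, h4 | h4⟩ | h | h | h
          · exact Or.inl (Or.inl (Or.inl (Or.inl ⟨hp, i, g, h, h1, h2, h3, h4⟩)))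
          · exact Or.inl (Or.inl (Or.inl (Or.inr ⟨hp, i, g, h, h1, h2, h3, h4⟩)))
          · exact Or.inl (Or.inl (Or.inr ⟨hp, h⟩))
          · exact Or.inl (Or.inr ⟨hp, h⟩)
          · exact Or.inr ⟨hp, h⟩
        · rintro ((((h | h) | h) | h) | h) <;> exact h.1
      rw [hdec]
      refine FD_union (FD_union (FD_union (FD_union ?_ ?_) ?_) ?_) ?_
      · exact FD_Tame_inj (B := B) n S1 fun p hp => by
          obtain ⟨-, i, g, h, h1, h2, h3, h4, h5⟩ := hp
          exact ⟨i, g, h, h1, h2, h3, h4, h5⟩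
      · have h : ∀ p : HPair A A, ∃ r : HPair A B, p ∈ S2 →
            (∀ x, p.1 x = p.2 x ↔ r.1 x = r.2 x) ∧ Tame n (rev r.1) ∧ Tame n (rev r.2) := by
          intro p
          by_cases hp : p ∈ S2
          · obtain ⟨-, i, g, h, hi, h1, h2, h3⟩ := hp
            refine ⟨(g, h), fun _ => ⟨fun x => ?_, h3⟩⟩
            rw [h1, h2]
            exact hi.eq_iff
          · exact ⟨(1, 1), fun h => absurd h hp⟩
        choose F hF using h
        apply FD_of_map S2 F (fun q hq => (hF q hq).1)
        apply FD_rev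
        apply FD_Tame n
        rintro _ ⟨_, ⟨q, hq, rfl⟩, rfl⟩
        exact (hF q hq).2
      · exact FD_mix n S3 fun p hp => hp.2
      · apply FD_swap
        apply FD_mix n
        rintro _ ⟨p, hp, rfl⟩
        exact ⟨hp.2.2, hp.2.1⟩
      · exact FD_Per S5 fun p hp => hp.2
    obtain ⟨T, hTf, hTS, hTE⟩ := hFD
    refine ⟨T, hTf, hTS, ?_⟩
    ext x
    simp only [Set.mem_iInter, Set.mem_ofPred_eq]
    constructor
    · intro hx p hp
      exact hTE (show x ∈ EqS T from hx) p hp
    · intro hx p hp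
      exact hx p (hTS hp)
  · intro g h
    refine ⟨∑ a, ((g (of a)).length + (h (of a)).length), ?_, ?_⟩
    all_goals
      refine ⟨A, _, MonoidHom.id _, fun a => ?_, Or.inl ⟨fun a => ?_, ?_⟩, (MonoidHom.id_comp _).symm⟩
      · have := Finset.single_le_sum (f := fun a => ((g (of a)).length + (h (of a)).length))
          (fun _ _ => Nat.zero_le _) (Finset.mem_univ a)
        omega
      · exact FreeMonoid.of_ne_one a
      · intro a b u v hab _ hd
        apply hab
        rw [MonoidHom.id_apply, MonoidHom.id_apply] at hd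
        exact head_unique ((Dvd.intro _ rfl : of a ∣ of a * u).trans hd)
          (Dvd.intro _ rfl : of b ∣ of b * v)

end Pool.Agent.Results.MP_de9e11_lc.TameFactorizations
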